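import Pool.Agent.MP_caba0b_al.H43.Iface

/-! Laurent polynomials, Euler operators and the Vandermonde alternant. -/

namespace Pool.Agent.MP_caba0b_al.H77

open Pool.Agent.MP_caba0b_al.H43 Equiv Finset AddMonoidAlgebra

abbrev R (n : ℕ) := AddMonoidAlgebra ℂ (Wt n)

variable {n : ℕ}

/-- multiply the coefficient of `μ` by `w μ` -/
noncomputable def M (w : Wt n → ℂ) : R n →ₗ[ℂ] R n where
  toFun f := .ofCoeff (Finsupp.onFinset f.coeff.support (fun μ => w μ * f.coeff μ)
    (fun μ h => Finsupp.mem_support_iff.2 (right_ne_zero_of_mul h)))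
  map_add' f g := by ext μ; simp [mul_add]
  map_smul' c f := by ext μ; simp [mul_left_comm]

@[simp] lemma M_coeff (w : Wt n → ℂ) (f : R n) (μ : Wt n) :
    (M w f).coeff μ = w μ * f.coeff μ := rfl

lemma M_single (w : Wt n → ℂ) (μ : Wt n) (c : ℂ) :
    M w (single μ c) = single μ (w μ * c) := by
  classical
  ext ν
  simp only [M_coeff, coeff_single, Finsupp.single_apply]
  split_ifs with h
  · rw [h]
  · simp

/-- the Euler operator -/
noncomputable def D (i : Fin n) : R n →ₗ[ℂ] R n := M fun μ => (μ i : ℂ)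

lemma D_single (i : Fin n) (μ : Wt n) (c : ℂ) : D i (single μ c) = single μ (μ i * c) :=
  M_single _ _ _

lemma D_mul (i : Fin n) (f g : R n) : D i (f * g) = D i f * g + f * D i g := by
  induction f using AddMonoidAlgebra.induction_linear with
  | zero => simp
  | add f f' h h' => simp only [add_mul, map_add, h, h']; ring
  | single μ c =>
    induction g using AddMonoidAlgebra.induction_linear with
    | zero => simp
    | add g g' h h' => simp only [mul_add, map_add, h, h']; ring
    | single ν d =>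
      simp only [single_mul_single, D_single, ← single_add]
      congr 1
      simp only [Pi.add_apply, Int.cast_add]
      ring

lemma D_one (i : Fin n) : D i (1 : R n) = 0 := by
  rw [AddMonoidAlgebra.one_def, D_single]; simp

lemma D_prod {κ : Type} [DecidableEq κ] (i : Fin n) (s : Finset κ) (f : κ → R n) :
    D i (∏ p ∈ s, f p) = ∑ p ∈ s, (∏ r ∈ s.erase p, f r) * D i (f p) := by
  induction s using Finset.induction_on with
  | empty => simp [D_one]
  | insert a s ha ih =>
    rw [prod_insert ha, sum_insert ha, D_mul, ih, erase_insert ha, mul_comm, mul_sum]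
    congr 1
    refine sum_congr rfl fun p hp => ?_
    have hne : a ≠ p := fun h => ha (h ▸ hp)
    rw [erase_insert_of_ne hne, prod_insert (fun h => ha (mem_of_mem_erase h)), mul_assoc]

/-- the variables -/
noncomputable def X (i : Fin n) : R n := single (Pi.single i 1) 1

lemma D_X (i j : Fin n) : D i (X j) = if i = j then X j else 0 := by
  rw [X, D_single]
  split_ifs with h
  · subst h; simp
  · simp [h]

/-- the alternant -/
noncomputable def A (l : Wt n) : R n := ∑ π : Perm (Fin n), single (l ∘ π) ((Perm.sign π : ℤ) : ℂ)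

/-- the pairs -/
def prs (n : ℕ) : Finset (Σ _ : Fin n, Fin n) := univ.sigma fun i => Ioi i

lemma A_del : A (del n) = ∏ p ∈ prs n, (X p.2 - X p.1) := by
  rw [prs, prod_sigma, ← Matrix.det_vandermonde, ← Matrix.det_transpose, Matrix.det_apply', A]
  refine sum_congr rfl fun π _ => ?_
  simp only [Matrix.transpose_apply, Matrix.vandermonde_apply, X, single_pow, prod_single,
    one_pow, prod_const_one]
  rw [intCast_def, single_mul_single, zero_add, mul_one]
  congr 1
  funext j
  simp [del, Finset.sum_apply, Pi.single_apply]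

/-- the eigenvalue of the radial Casimir operator -/
noncomputable def q (μ : Wt n) : ℂ := ∑ i, ((μ i : ℂ) ^ 2 - ((n : ℂ) - 1) * μ i)

lemma q_comp (μ : Wt n) (π : Perm (Fin n)) : q (μ ∘ π) = q μ :=
  Equiv.sum_comp π fun i => ((μ i : ℂ) ^ 2 - ((n : ℂ) - 1) * μ i)

lemma q_A (l : Wt n) : M q (A l) = q l • A l := by
  simp only [A, map_sum, M_single, q_comp, smul_sum, smul_single, smul_eq_mul]

lemma Mq (f : R n) : M q f = ∑ i, (D i (D i f) - ((n : ℂ) - 1) • D i f) := by
  ext μ
  simp only [M_coeff, q, coeff_sum, Finsupp.coe_finsetSum, Finset.sum_apply, coeff_sub,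
    Finsupp.coe_sub, Pi.sub_apply, D, coeff_smul, Finsupp.coe_smul, Pi.smul_apply, smul_eq_mul,
    sum_mul]
  exact sum_congr rfl fun i _ => by ring

lemma sum_prs {N : Type} [AddCommMonoid N] (f : Fin n → Fin n → N) :
    ∑ i, ∑ j, f i j = ∑ i, f i i + ∑ p ∈ prs n, (f p.1 p.2 + f p.2 p.1) := by
  rw [prs, sum_sigma]
  have := Finset.sum_sum_Ioi_add_eq_sum_sum_off_diag (fun j i => f i j)
  simp only at this ⊢
  rw [this, ← sum_add_distrib]
  refine sum_congr rfl fun i _ => ?_
  rw [← sum_add_sum_compl {i}, sum_singleton]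

lemma sum_prs' (f : Fin n → R n) :
    ∑ p ∈ prs n, (f p.1 + f p.2) = ∑ i, ((n : ℂ) - 1) • f i := by
  have := sum_prs (fun i _ => f i)
  simp only [sum_const, card_univ, Fintype.card_fin] at this
  rw [← add_right_inj (∑ i, f i), ← this, ← sum_add_distrib]
  refine sum_congr rfl fun i _ => ?_
  rw [sub_smul, one_smul, Nat.cast_smul_eq_nsmul]
  abel

/-- the radial part of the Casimir operator -/
lemma radial (χ : R n) (T : Fin n → Fin n → R n) (h1 : ∀ i, T i i = D i (D i χ))
    (h2 : ∀ i j, X j * T i j = X i * T j i) (h3 : ∀ i j, T i j - T j i = D i χ - D j χ) :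
    A (del n) * ∑ i, ∑ j, T i j = M q (A (del n) * χ) - q (del n) • (A (del n) * χ) := by
  set a := A (del n) with ha
  set b : (Σ _ : Fin n, Fin n) → R n := fun p => ∏ r ∈ (prs n).erase p, (X r.2 - X r.1) with hb
  have hab : ∀ p ∈ prs n, a = b p * (X p.2 - X p.1) := fun p hp => by
    rw [ha, A_del, hb, prod_erase_mul _ _ hp]
  have hD : ∑ i, D i a * D i χ = ∑ p ∈ prs n, b p * (X p.2 * D p.2 χ - X p.1 * D p.1 χ) := by
    simp only [ha, A_del, D_prod, sum_mul]
    rw [sum_comm]
    refine sum_congr rfl fun p _ => ?_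
    simp only [map_sub, D_X, mul_assoc, ← mul_sum, sub_mul, sum_sub_distrib, ite_mul, zero_mul,
      sum_ite_eq', mem_univ, if_true, hb]
  have hp : ∀ p ∈ prs n, a * (T p.1 p.2 + T p.2 p.1) =
      2 * (b p * (X p.2 * D p.2 χ - X p.1 * D p.1 χ)) - a * (D p.1 χ + D p.2 χ) := fun p hp => by
    rw [hab p hp]
    linear_combination (2 * b p) * h2 p.1 p.2 - (b p * (X p.1 + X p.2)) * h3 p.1 p.2
  have hq : M q a * χ = q (del n) • (a * χ) := by rw [ha, q_A, smul_mul_assoc]
  rw [sum_prs, mul_add, mul_sum (prs n), sum_congr rfl hp, sum_sub_distrib, ← mul_sum, ← hD,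
    ← mul_sum, sum_prs' (fun i => D i χ), ← hq, Mq, Mq, sum_mul, mul_sum, mul_sum, mul_sum,
    ← sum_sub_distrib, ← sum_sub_distrib, ← sum_add_distrib]
  refine sum_congr rfl fun i _ => ?_
  simp only [h1, D_mul, map_add, Algebra.smul_def]
  ring

lemma A_mul_coeff (l : Wt n) (f : R n) (ν : Wt n) :
    (A l * f).coeff ν = ∑ π : Perm (Fin n), ((Perm.sign π : ℤ) : ℂ) * f.coeff (ν - l ∘ π) := by
  simp only [A, sum_mul, coeff_sum, Finsupp.coe_finsetSum, Finset.sum_apply,
    coeff_single_mul_apply]
  exact sum_congr rfl fun π _ => by rw [neg_add_eq_sub]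

lemma A_coeff (l ν : Wt n) : (A l).coeff ν = (alt l ν : ℝ) := by
  simp only [A, alt, coeff_sum, Finsupp.coe_finsetSum, Finset.sum_apply, coeff_single,
    Finsupp.single_apply, Complex.ofReal_sum]
  refine sum_congr rfl fun π _ => ?_
  by_cases h : ν = l ∘ π
  · simp [h]
  · simp [h, Ne.symm h]

lemma A_coeff_zero (l ν : Wt n) (h : q ν ≠ q l) : (A l).coeff ν = 0 := by
  have := congrArg (fun f : R n => f.coeff ν) (q_A l)
  simp only [M_coeff, coeff_smul, Finsupp.coe_smul, Pi.smul_apply, smul_eq_mul] at this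
  by_contra h0
  exact h (mul_right_cancel₀ h0 this)

lemma pieri (l : Wt n) : A l * ∑ j, X j = ∑ j, A (l + Pi.single j 1) := by
  simp only [A, sum_mul]
  rw [sum_comm]
  refine sum_congr rfl fun π _ => ?_
  rw [mul_sum]
  refine Fintype.sum_equiv π _ _ fun j => ?_
  rw [X, single_mul_single, mul_one]
  congr 1
  funext k
  simp [Pi.single_apply]

lemma q_add (l : Wt n) (j : Fin n) :
    q (l + Pi.single j 1) = q l + (2 * l j + 1 - ((n : ℂ) - 1)) := by
  have : (2 * l j + 1 - ((n : ℂ) - 1)) =
      ∑ i, if i = j then (2 * l j + 1 - ((n : ℂ) - 1)) else 0 := by simp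
  rw [this, q, q, ← sum_add_distrib]
  refine sum_congr rfl fun i _ => ?_
  by_cases h : i = j
  · subst h; simp; ring
  · simp [h]

lemma A_const (k : ℤ) : A (del n) * single (fun _ => k) 1 = A ((fun _ => k) + del n) := by
  simp only [A, sum_mul, single_mul_single, mul_one]
  refine sum_congr rfl fun π _ => ?_
  congr 1
  funext i
  simp [add_comm]

end Pool.Agent.MP_caba0b_al.H77
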