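import Mathlib

/-! Spectral projections of Hermitian matrices; the flip identity. -/

namespace Pool.Agent.MP_caba0b_al.H77

open Matrix Finset

variable {ι : Type} [Fintype ι] [DecidableEq ι]

lemma herm_diag {Ω : Matrix ι ι ℂ} (h : Ωᴴ = Ω) :
    ∃ (u : Matrix ι ι ℂ) (ev : ι → ℂ), uᴴ * u = 1 ∧ u * uᴴ = 1 ∧ Ω = u * diagonal ev * uᴴ := by
  have hH : Ω.IsHermitian := h
  refine ⟨hH.eigenvectorUnitary, RCLike.ofReal ∘ hH.eigenvalues, ?_, ?_, ?_⟩
  · exact Matrix.mem_unitaryGroup_iff'.1 hH.eigenvectorUnitary.2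
  · exact Matrix.mem_unitaryGroup_iff.1 hH.eigenvectorUnitary.2
  · have := hH.spectral_theorem
    rwa [Unitary.conjStarAlgAut_apply] at this

/-- the spectral projection of a Hermitian matrix on an eigenvalue -/
lemma spec_proj {Ω : Matrix ι ι ℂ} (h : Ωᴴ = Ω) (c : ℂ) :
    ∃ P G : Matrix ι ι ℂ, Pᴴ = P ∧ P * P = P ∧ P * Ω = c • P ∧ 1 - P = G * Ω - c • G ∧
      ∀ B, Commute B Ω → Commute B P ∧ Commute B G := by
  obtain ⟨u, ev, h1, h2, h3⟩ := herm_diag h
  obtain ⟨F, hF⟩ : ∃ F : (ℂ → ℂ) → Matrix ι ι ℂ,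
      ∀ f, F f = u * diagonal (fun a => f (ev a)) * uᴴ := ⟨_, fun _ => rfl⟩
  have hmul : ∀ f g, F f * F g = F fun t => f t * g t := fun f g => by
    simp only [hF]
    rw [← diagonal_mul_diagonal]
    calc _ = u * diagonal (fun a => f (ev a)) * (uᴴ * u) * diagonal (fun a => g (ev a)) * uᴴ := by
          simp only [mul_assoc]
      _ = _ := by rw [h1]; simp only [mul_assoc, one_mul]
  have hsm : ∀ (c : ℂ) f, c • F f = F fun t => c * f t := fun c f => by
    simp only [hF]
    rw [← smul_mul_assoc, ← mul_smul_comm, ← diagonal_smul]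
    rfl
  have hsub : ∀ f g, F f - F g = F fun t => f t - g t := fun f g => by
    simp only [hF]
    rw [← sub_mul, ← mul_sub, diagonal_sub]
  have hone : 1 = F fun _ => 1 := by simp [hF, h2]
  have hΩ : Ω = F fun t => t := by rw [hF]; exact h3
  have hcomm : ∀ B, Commute B Ω → ∀ f, Commute B (F f) := fun B hB f => by
    set C := uᴴ * B * u with hC
    have hB' : B = u * C * uᴴ := by
      calc B = (u * uᴴ) * B * (u * uᴴ) := by rw [h2, one_mul, mul_one]
        _ = _ := by simp only [hC, mul_assoc]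
    have h4 : C * diagonal ev = diagonal ev * C := by
      calc C * diagonal ev = C * diagonal ev * (uᴴ * u) := by rw [h1, mul_one]
        _ = uᴴ * (B * Ω) * u := by simp only [hC, h3, mul_assoc]
        _ = uᴴ * (Ω * B) * u := by rw [hB.eq]
        _ = (uᴴ * u) * diagonal ev * C := by simp only [hC, h3, mul_assoc]
        _ = _ := by rw [h1, one_mul]
    have h5 : C * diagonal (fun a => f (ev a)) = diagonal (fun a => f (ev a)) * C := by
      ext a b
      have := congrFun (congrFun h4 a) b
      rw [mul_diagonal, diagonal_mul] at this ⊢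
      by_cases h0 : C a b = 0
      · simp [h0]
      · rw [mul_comm (ev a)] at this
        rw [mul_left_cancel₀ h0 this, mul_comm]
    rw [hB']
    change _ * _ = _ * _
    simp only [hF]
    calc _ = u * (C * (uᴴ * u) * diagonal (fun a => f (ev a))) * uᴴ := by simp only [mul_assoc]
      _ = u * (diagonal (fun a => f (ev a)) * (uᴴ * u) * C) * uᴴ := by
          rw [h1, mul_one, mul_one, h5]
      _ = _ := by simp only [mul_assoc]
  refine ⟨F fun t => if t = c then 1 else 0, F fun t => (t - c)⁻¹, ?_, ?_, ?_, ?_,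
    fun B hB => ⟨hcomm B hB _, hcomm B hB _⟩⟩
  · simp only [hF, conjTranspose_mul, conjTranspose_conjTranspose, diagonal_conjTranspose,
      mul_assoc]
    congr 3
    funext a
    simp only [Pi.star_apply]
    split_ifs <;> simp
  · rw [hmul]
    congr 1
    funext t
    split_ifs <;> simp
  · rw [hΩ, hmul, hsm]
    congr 1
    funext t
    split_ifs with h <;> simp [h]
  · rw [hΩ, hmul, hsm, hsub, hone, hsub]
    congr 1
    funext t
    split_ifs with h
    · simp [h]
    · have := sub_ne_zero.2 h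
      field_simp
      ring

/-- an orthogonal projection factors through an isometry -/
lemma proj_iso {P : Matrix ι ι ℂ} (h : Pᴴ = P) (hP : P * P = P) :
    ∃ (d : ℕ) (J : Matrix ι (Fin d) ℂ), Jᴴ * J = 1 ∧ J * Jᴴ = P := by
  obtain ⟨u, ev, h1, h2, h3⟩ := herm_diag h
  have hev : ∀ a, ev a = 0 ∨ ev a = 1 := fun a => by
    have h4 : diagonal ev * diagonal ev = diagonal ev := by
      calc _ = (uᴴ * u) * diagonal ev * (uᴴ * u) * diagonal ev * (uᴴ * u) := by simp [h1]
        _ = uᴴ * (P * P) * u := by simp only [h3, mul_assoc]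
        _ = (uᴴ * u) * diagonal ev * (uᴴ * u) := by rw [hP]; simp only [h3, mul_assoc]
        _ = _ := by simp [h1]
    rw [diagonal_mul_diagonal] at h4
    have h5 := congrFun (diagonal_injective h4) a
    by_cases h0 : ev a = 0
    · exact Or.inl h0
    · exact Or.inr (mul_left_cancel₀ h0 (h5.trans (mul_one _).symm))
  classical
  let e := Fintype.equivFin {a // ev a = 1}
  refine ⟨_, u.submatrix id fun k => (e.symm k).1, ?_, ?_⟩
  · ext k l
    have := congrFun (congrFun h1 (e.symm k).1) (e.symm l).1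
    simp only [mul_apply, conjTranspose_apply, submatrix_apply, id, one_apply] at this ⊢
    rw [this]
    simp [Subtype.val_inj]
  · ext a b
    rw [h3]
    simp only [mul_apply, conjTranspose_apply, submatrix_apply, id, diagonal_apply, mul_ite,
      mul_zero, sum_ite_eq', mem_univ, if_true]
    rw [e.symm.sum_comp (fun k : {a // ev a = 1} => u a k.1 * star (u b k.1)),
      ← Finset.sum_subtype (univ.filter fun a => ev a = 1) (by simp)
        (fun k => u a k * star (u b k)), sum_filter]
    refine sum_congr rfl fun k _ => ?_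
    rcases hev k with h | h <;> simp [h]

lemma trace_proj {P : Matrix ι ι ℂ} (h : Pᴴ = P) (hP : P * P = P) : ∃ m : ℕ, trace P = m := by
  obtain ⟨d, J, h1, h2⟩ := proj_iso h hP
  exact ⟨d, by rw [← h2, trace_mul_comm, h1, trace_one, Fintype.card_fin]⟩

lemma flip {m N : Type} [Fintype m] [DecidableEq m] [Ring N] [Algebra ℂ N]
    (f g : Matrix m m ℂ →ₗ[ℂ] N) (P Q : Matrix m m ℂ) :
    ∑ i, ∑ j, f (P * single i j 1 * Q) * g (single j i 1) =
      ∑ i, ∑ j, f (single i j 1) * g (Q * single j i 1 * P) := by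
  have key : ∀ (P Q : Matrix m m ℂ) i j, P * single i j 1 * Q =
      ∑ k, ∑ l, (P k i * Q j l) • single k l (1 : ℂ) := fun P Q i j => by
    rw [matrix_eq_sum_single (P * single i j 1 * Q)]
    refine sum_congr rfl fun k _ => sum_congr rfl fun l _ => ?_
    rw [smul_single, smul_eq_mul, mul_one]
    congr 1
    simp [mul_apply, single_apply, ite_and]
  simp only [key, map_sum, map_smul, sum_mul, mul_sum, smul_mul_assoc, mul_smul_comm]
  simp only [← Fintype.sum_prod_type']
  exact Fintype.sum_equiv ⟨fun x => (x.2.2.1, x.2.2.2, x.2.1, x.1),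
    fun y => (y.2.2.2, y.2.2.1, y.1, y.2.1), fun _ => rfl, fun _ => rfl⟩ _ _ fun x => by
      simp [mul_comm]

end Pool.Agent.MP_caba0b_al.H77
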