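import Pool.Agent.MP_caba0b_al.H77.Ring
import Pool.Agent.MP_caba0b_al.H77.Spec

/-! Every Schur function is the character of a continuous unitary representation. -/

namespace Pool.Agent.MP_caba0b_al.H77

open Pool.Agent.MP_caba0b_al.H43 Equiv Finset Matrix Kronecker

variable {n : ℕ}

/-- matrix units -/
abbrev e (i j : Fin n) : Matrix (Fin n) (Fin n) ℂ := Matrix.single i j 1

/-- a representation of the unitary group together with its Lie algebra action -/
structure Rep (n : ℕ) (ι : Type) [Fintype ι] [DecidableEq ι] where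
  ρ : U n →* Matrix ι ι ℂ
  cont : Continuous ρ
  unit : ∀ g, (ρ g)ᴴ * ρ g = 1
  E : Matrix (Fin n) (Fin n) ℂ →ₗ[ℂ] Matrix ι ι ℂ
  wt : ι → Wt n
  diag : ∀ x, ρ (diagU x) = diagonal fun a => ∏ i, (x i : ℂ) ^ wt a i
  Ediag : ∀ i, E (e i i) = diagonal fun a => (wt a i : ℂ)
  lie : ∀ A B, E A * E B - E B * E A = E (A * B - B * A)
  star : ∀ A, (E A)ᴴ = E Aᴴ
  equiv : ∀ (g : U n) A, ρ g * E A = E (g.1 * A * g.1ᴴ) * ρ g

namespace Rep

variable {ι : Type} [Fintype ι] [DecidableEq ι] (V : Rep n ι)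

/-- the Casimir operator -/
noncomputable def cas : Matrix ι ι ℂ := ∑ i, ∑ j, V.E (e i j) * V.E (e j i)

lemma cas_star : V.casᴴ = V.cas := by
  simp [cas, conjTranspose_sum, V.star]

lemma cas_E (B : Matrix (Fin n) (Fin n) ℂ) : Commute (V.E B) V.cas := by
  have h1 := flip V.E V.E 1 B
  have h2 := flip V.E V.E B 1
  simp only [one_mul, mul_one] at h1 h2
  have : V.E B * V.cas - V.cas * V.E B =
      (∑ i, ∑ j, V.E (B * e i j) * V.E (e j i) - ∑ i, ∑ j, V.E (e i j) * V.E (e j i * B)) -
      (∑ i, ∑ j, V.E (e i j * B) * V.E (e j i) - ∑ i, ∑ j, V.E (e i j) * V.E (B * e j i)) := by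
    simp only [cas, mul_sum, sum_mul, ← sum_sub_distrib]
    refine sum_congr rfl fun i _ => sum_congr rfl fun j _ => ?_
    have h3 := V.lie B (e i j)
    have h4 := V.lie B (e j i)
    rw [map_sub] at h3 h4
    calc _ = (V.E B * V.E (e i j) - V.E (e i j) * V.E B) * V.E (e j i) +
          V.E (e i j) * (V.E B * V.E (e j i) - V.E (e j i) * V.E B) := by noncomm_ring
      _ = _ := by rw [h3, h4]; noncomm_ring
  rw [h1, h2, sub_self, sub_self, sub_self] at this
  exact sub_eq_zero.1 this

lemma cas_ρ (g : U n) : Commute (V.ρ g) V.cas := by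
  have hg : g.1 * g.1ᴴ = 1 := Matrix.mem_unitaryGroup_iff.1 g.2
  have h1 := flip V.E (V.E ∘ₗ LinearMap.mulLeftRight ℂ (g.1, g.1ᴴ)) g.1 g.1ᴴ
  have h2 : ∀ A : Matrix (Fin n) (Fin n) ℂ, g.1 * (g.1ᴴ * A * g.1) * g.1ᴴ = A := fun A => by
    calc _ = (g.1 * g.1ᴴ) * A * (g.1 * g.1ᴴ) := by simp only [mul_assoc]
      _ = A := by rw [hg, one_mul, mul_one]
  simp only [LinearMap.comp_apply, LinearMap.mulLeftRight_apply, h2] at h1
  change _ * _ = _ * _
  rw [cas]
  nth_rewrite 2 [← h1]
  simp only [mul_sum, sum_mul]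
  refine sum_congr rfl fun i _ => sum_congr rfl fun j _ => ?_
  rw [← mul_assoc, V.equiv, mul_assoc, V.equiv, ← mul_assoc]

/-- the formal trace of `Y` times the torus element -/
noncomputable def ch : Matrix ι ι ℂ →ₗ[ℂ] R n where
  toFun Y := ∑ a, AddMonoidAlgebra.single (V.wt a) (Y a a)
  map_add' Y Z := by simp [AddMonoidAlgebra.single_add, sum_add_distrib]
  map_smul' c Y := by simp [smul_sum]

lemma ch_apply (Y : Matrix ι ι ℂ) :
    V.ch Y = ∑ a, AddMonoidAlgebra.single (V.wt a) (Y a a) := rfl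

lemma ch_diag (Y : Matrix ι ι ℂ) (i : Fin n) : V.ch (Y * V.E (e i i)) = D i (V.ch Y) := by
  simp only [ch_apply, V.Ediag, map_sum, D_single, mul_diagonal, mul_comm]

lemma wt_shift (i j : Fin n) (a b : ι) (h : V.E (e j i) b a ≠ 0) :
    Pi.single j 1 + V.wt a = Pi.single i 1 + V.wt b := by
  funext k
  have h1 := V.lie (e k k) (e j i)
  have h2 : e k k * e j i - e j i * e k k =
      (((Pi.single j 1 : Wt n) k : ℂ) - ((Pi.single i 1 : Wt n) k : ℂ)) • e j i := by
    rw [sub_smul]
    congr 1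
    · by_cases hk : k = j
      · subst hk; simp
      · simp [hk, single_mul_single_of_ne]
    · by_cases hk : k = i
      · subst hk; simp
      · simp [hk, single_mul_single_of_ne, Ne.symm hk]
  rw [h2, map_smul, V.Ediag] at h1
  have h3 := congrFun (congrFun h1 b) a
  simp only [Matrix.sub_apply, mul_diagonal, diagonal_mul, Matrix.smul_apply, smul_eq_mul] at h3
  rw [mul_comm _ (V.wt a k : ℂ), ← sub_mul] at h3
  have h4 := mul_right_cancel₀ h h3
  simp only [Pi.add_apply]
  have : (((Pi.single j 1 : Wt n) k + V.wt a k : ℤ) : ℂ) =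
      (((Pi.single i 1 : Wt n) k + V.wt b k : ℤ) : ℂ) := by
    push_cast
    linear_combination -h4
  exact_mod_cast this

lemma ch_shift (i j : Fin n) (Z : Matrix ι ι ℂ) :
    X j * V.ch (Z * V.E (e j i)) = X i * V.ch (V.E (e j i) * Z) := by
  simp only [ch_apply, X, mul_sum, AddMonoidAlgebra.single_mul_single, one_mul, mul_apply]
  have hs : ∀ (μ : Wt n) (f : ι → ℂ), (AddMonoidAlgebra.single μ (∑ b, f b) : R n) =
      ∑ b, AddMonoidAlgebra.single μ (f b) := fun μ f =>
    map_sum (AddMonoidAlgebra.singleAddHom μ) f univ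
  simp only [hs]
  rw [sum_comm]
  refine sum_congr rfl fun b _ => sum_congr rfl fun a _ => ?_
  by_cases h : V.E (e j i) b a = 0
  · simp [h]
  · rw [V.wt_shift i j a b h, mul_comm]

lemma ch_cas {Y : Matrix ι ι ℂ} (hY : ∀ B, Commute (V.E B) Y) (ν : Wt n) :
    (A (del n) * V.ch (Y * V.cas)).coeff ν =
      (q ν - q (del n)) * (A (del n) * V.ch Y).coeff ν := by
  have := radial (V.ch Y) (fun i j => V.ch (Y * V.E (e i j) * V.E (e j i)))
    (fun i => by rw [ch_diag, ch_diag])
    (fun i j => by rw [ch_shift, ← mul_assoc, (hY _).eq])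
    (fun i j => by
      rw [← map_sub, mul_assoc, mul_assoc, ← mul_sub, V.lie, map_sub, mul_sub, map_sub]
      simp [ch_diag])
  rw [cas]
  simp only [mul_sum, map_sum, ← mul_assoc] at this ⊢
  rw [this]
  simp [sub_mul]

/-- an invariant orthogonal projection -/
structure Proj (P : Matrix ι ι ℂ) : Prop where
  star : Pᴴ = P
  idem : P * P = P
  ρ : ∀ g, Commute (V.ρ g) P
  E : ∀ B, Commute (V.E B) P

lemma refine_proj {P : Matrix ι ι ℂ} (hP : V.Proj P) (c : ℂ) : ∃ P', V.Proj P' ∧ ∀ ν,
    (A (del n) * V.ch P').coeff ν = if q ν = c then (A (del n) * V.ch P).coeff ν else 0 := by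
  obtain ⟨Q, G, h1, h2, h3, h4, h5⟩ := spec_proj V.cas_star (c - q (del n))
  have hc : Commute P V.cas := by
    refine Commute.sum_right _ _ _ fun i _ => Commute.sum_right _ _ _ fun j _ => ?_
    exact (hP.E _).symm.mul_right (hP.E _).symm
  have hQ := (h5 P hc).1
  have hE : ∀ B, Commute (V.E B) (P * Q) := fun B => (hP.E B).mul_right (h5 _ (V.cas_E B)).1
  refine ⟨P * Q, ⟨?_, ?_, fun g => (hP.ρ g).mul_right (h5 _ (V.cas_ρ g)).1, hE⟩, fun ν => ?_⟩
  · rw [conjTranspose_mul, h1, hP.star, hQ.eq]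
  · rw [mul_assoc, ← mul_assoc Q, ← hQ.eq, mul_assoc, h2, ← mul_assoc, hP.idem]
  · split_ifs with h
    · have h6 := V.ch_cas (Y := P * G) (fun B => (hP.E B).mul_right (h5 _ (V.cas_E B)).2) ν
      have h7 : P * Q = P - (P * G * V.cas - (c - q (del n)) • (P * G)) := by
        rw [mul_assoc, ← mul_smul_comm, ← mul_sub, ← h4]; noncomm_ring
      rw [h7, map_sub, map_sub, map_smul, mul_sub, mul_sub, mul_smul_comm]
      simp [h6, h]
    · have h6 := V.ch_cas hE ν
      rw [mul_assoc, h3, mul_smul_comm, map_smul, mul_smul_comm] at h6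
      simp only [AddMonoidAlgebra.coeff_smul, Finsupp.coe_smul, Pi.smul_apply, smul_eq_mul] at h6
      by_contra h0
      exact h (by linear_combination -(mul_right_cancel₀ h0 h6))

/-- tensor product with the standard representation -/
noncomputable def tens : Rep n (ι × Fin n) where
  ρ := { toFun g := V.ρ g ⊗ₖ g.1
         map_one' := by simp
         map_mul' g h := by simp [mul_kronecker_mul] }
  cont := by
    refine continuous_matrix fun a b => ?_
    exact (V.cont.matrix_elem a.1 b.1).mul (continuous_subtype_val.matrix_elem a.2 b.2)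
  unit g := by
    have hg : g.1ᴴ * g.1 = 1 := Matrix.mem_unitaryGroup_iff'.1 g.2
    simp [conjTranspose_kronecker, ← mul_kronecker_mul, V.unit, hg]
  E := { toFun B := V.E B ⊗ₖ 1 + 1 ⊗ₖ B
         map_add' B C := by simp only [map_add, add_kronecker, kronecker_add]; abel
         map_smul' c B := by simp [smul_kronecker, kronecker_smul] }
  wt a := V.wt a.1 + Pi.single a.2 1
  diag x := by
    change V.ρ (diagU x) ⊗ₖ diagonal (fun i => (x i : ℂ)) = _
    rw [V.diag, diagonal_kronecker_diagonal]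
    congr 1
    funext a
    simp only [Pi.add_apply, zpow_add₀ (Circle.coe_ne_zero _), prod_mul_distrib]
    congr 1
    rw [Fintype.prod_eq_single a.2 fun i hi => by simp [hi]]
    simp
  Ediag i := by
    change V.E (e i i) ⊗ₖ 1 + 1 ⊗ₖ e i i = _
    rw [V.Ediag, e, ← diagonal_single, ← diagonal_one, ← diagonal_one,
      diagonal_kronecker_diagonal, diagonal_kronecker_diagonal, diagonal_add]
    congr 1
    funext a
    simp [Pi.single_apply, eq_comm]
  lie B C := by
    change (V.E B ⊗ₖ 1 + 1 ⊗ₖ B) * (V.E C ⊗ₖ 1 + 1 ⊗ₖ C) -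
      (V.E C ⊗ₖ 1 + 1 ⊗ₖ C) * (V.E B ⊗ₖ 1 + 1 ⊗ₖ B) = V.E _ ⊗ₖ 1 + 1 ⊗ₖ _
    rw [← V.lie]
    simp only [add_mul, mul_add, ← mul_kronecker_mul, one_mul, mul_one]
    ext a b
    simp only [Matrix.sub_apply, Matrix.add_apply, kroneckerMap_apply]
    ring
  star B := by
    change (V.E B ⊗ₖ 1 + 1 ⊗ₖ B)ᴴ = V.E _ ⊗ₖ 1 + 1 ⊗ₖ _
    simp [conjTranspose_kronecker, V.star]
  equiv g B := by
    have hg : g.1ᴴ * g.1 = 1 := Matrix.mem_unitaryGroup_iff'.1 g.2
    change V.ρ g ⊗ₖ g.1 * (V.E B ⊗ₖ 1 + 1 ⊗ₖ B) = (V.E _ ⊗ₖ 1 + 1 ⊗ₖ _) * V.ρ g ⊗ₖ g.1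
    simp only [add_mul, mul_add, ← mul_kronecker_mul, one_mul, mul_one, V.equiv, mul_assoc, hg]

lemma tens_proj {P : Matrix ι ι ℂ} (hP : V.Proj P) : V.tens.Proj (P ⊗ₖ 1) where
  star := by simp [conjTranspose_kronecker, hP.star]
  idem := by simp [← mul_kronecker_mul, hP.idem]
  ρ g := by
    change V.ρ g ⊗ₖ g.1 * _ = _ * V.ρ g ⊗ₖ g.1
    simp [← mul_kronecker_mul, (hP.ρ g).eq]
  E B := by
    change (V.E B ⊗ₖ 1 + 1 ⊗ₖ B) * _ = _ * (V.E B ⊗ₖ 1 + 1 ⊗ₖ B)
    simp [add_mul, mul_add, ← mul_kronecker_mul, (hP.E B).eq]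

lemma tens_ch (P : Matrix ι ι ℂ) : V.tens.ch (P ⊗ₖ 1) = V.ch P * ∑ j, X j := by
  simp only [ch_apply, X, sum_mul_sum, AddMonoidAlgebra.single_mul_single, Fintype.sum_prod_type]
  simp [tens]

/-- the multiplicities are natural numbers -/
lemma ch_nat {P : Matrix ι ι ℂ} (hP : V.Proj P) (μ : Wt n) : ∃ m : ℕ, (V.ch P).coeff μ = m := by
  classical
  set W : Matrix ι ι ℂ := diagonal fun a => if V.wt a = μ then 1 else 0 with hW
  have hc : P * W = W * P := by
    ext a b
    rw [mul_diagonal, diagonal_mul]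
    by_cases h0 : P a b = 0
    · simp [h0]
    · have : V.wt a = V.wt b := funext fun i => by
        have := congrFun (congrFun (hP.E (e i i)).eq a) b
        rw [V.Ediag, mul_diagonal, diagonal_mul, mul_comm] at this
        exact_mod_cast mul_left_cancel₀ h0 this
      rw [this, mul_comm]
  have hs : Wᴴ = W := by
    rw [hW, diagonal_conjTranspose]
    congr 1
    funext a
    simp only [Pi.star_apply]
    split_ifs <;> simp
  have hi : W * W = W := by
    rw [hW, diagonal_mul_diagonal]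
    congr 1
    funext a
    split_ifs <;> simp
  obtain ⟨m, hm⟩ := trace_proj (P := P * W) (by rw [conjTranspose_mul, hs, hP.star, hc])
    (by rw [mul_assoc, ← mul_assoc W, ← hc, mul_assoc, hi, ← mul_assoc, hP.idem])
  refine ⟨m, ?_⟩
  rw [← hm]
  simp [ch_apply, trace, hW, Finsupp.single_apply]

lemma exists_char {P : Matrix ι ι ℂ} (hP : V.Proj P) :
    ∃ χ : Wt n →₀ ℕ, IsChar n χ ∧ ∀ μ, (V.ch P).coeff μ = χ μ := by
  classical
  choose m hm using V.ch_nat hP
  have hsupp : ∀ μ, m μ ≠ 0 → μ ∈ univ.image V.wt := fun μ h => by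
    by_contra h0
    apply h
    have : (V.ch P).coeff μ = 0 := by
      simp only [mem_image, mem_univ, true_and, not_exists] at h0
      simp [ch_apply, h0]
    exact_mod_cast (hm μ).symm.trans this
  obtain ⟨d, J, h1, h2⟩ := proj_iso hP.star hP.idem
  have hJ : ∀ g, P * V.ρ g * J = V.ρ g * J := fun g => by
    rw [← (hP.ρ g).eq, ← h2, Matrix.mul_assoc, Matrix.mul_assoc, h1, Matrix.mul_one]
  have hm2 : ∀ (Z : Matrix ι ι ℂ) g, Jᴴ * Z * J * (Jᴴ * V.ρ g * J) = Jᴴ * (Z * V.ρ g) * J :=
    fun Z g => by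
      calc _ = Jᴴ * Z * ((J * Jᴴ) * V.ρ g * J) := by simp only [Matrix.mul_assoc]
        _ = _ := by rw [h2, hJ]; simp only [Matrix.mul_assoc]
  refine ⟨Finsupp.onFinset _ m hsupp, ⟨d,
    { toFun g := ⟨Jᴴ * V.ρ g * J, ?_⟩
      map_one' := Subtype.ext (by simp [h1])
      map_mul' g h := Subtype.ext (by simp [hm2]) }, ?_, fun x => ?_⟩, hm⟩
  · rw [Matrix.mem_unitaryGroup_iff', star_eq_conjTranspose]
    rw [conjTranspose_mul, conjTranspose_mul, conjTranspose_conjTranspose,
      ← Matrix.mul_assoc Jᴴ (V.ρ g)ᴴ J]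
    rw [hm2, V.unit, Matrix.mul_one, h1]
  · exact Continuous.subtype_mk ((continuous_const.matrix_mul V.cont).matrix_mul continuous_const) _
  · change trace (Jᴴ * V.ρ (diagU x) * J) = _
    rw [trace_mul_comm, ← Matrix.mul_assoc, h2, V.diag, chv,
      Finsupp.onFinset_sum _ (fun _ => by simp)]
    simp only [← hm, ch_apply, AddMonoidAlgebra.coeff_sum, Finsupp.coe_finsetSum,
      Finset.sum_apply, AddMonoidAlgebra.coeff_single, Finsupp.single_apply, sum_mul]
    rw [sum_comm]
    simp [trace]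

end Rep

/-- powers of the determinant -/
noncomputable def detRep (n : ℕ) (k : ℤ) : Rep n Unit where
  ρ := { toFun g := diagonal fun _ => g.1.det ^ k
         map_one' := by simp
         map_mul' g h := by simp [mul_zpow] }
  cont := by
    refine Continuous.matrix_diagonal (continuous_pi fun _ => ?_)
    refine (continuous_subtype_val.matrix_det).zpow₀ k fun g => Or.inl ?_
    exact (Unitary.isUnit_coe (U := ⟨_, Matrix.det_of_mem_unitary g.2⟩)).ne_zero
  unit g := by
    have := (Unitary.mem_iff.1 (Matrix.det_of_mem_unitary g.2)).1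
    change (diagonal fun _ => g.1.det ^ k)ᴴ * (diagonal fun _ => g.1.det ^ k) = 1
    rw [diagonal_conjTranspose, diagonal_mul_diagonal, ← diagonal_one]
    congr 1
    funext a
    rw [Pi.star_apply, star_zpow₀, ← mul_zpow, this, _root_.one_zpow]
  E := { toFun B := diagonal fun _ => k * trace B
         map_add' B C := by simp [mul_add]
         map_smul' c B := by ext; simp [mul_left_comm] }
  wt _ _ := k
  diag x := by simp [diagU, prod_zpow]
  Ediag i := by simp
  lie B C := by simp [mul_comm, trace_mul_comm B C]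
  star B := by ext; simp [trace_conjTranspose]
  equiv g B := by
    have hg : g.1ᴴ * g.1 = 1 := Matrix.mem_unitaryGroup_iff'.1 g.2
    have : trace (g.1 * B * g.1ᴴ) = trace B := by rw [trace_mul_comm, ← mul_assoc, hg, one_mul]
    simp [this, mul_comm]

/-- the alternant of `l` is the numerator of a character -/
def Good (l : Wt n) : Prop :=
  ∃ (ι : Type) (_ : Fintype ι) (_ : DecidableEq ι) (V : Rep n ι) (P : Matrix ι ι ℂ),
    V.Proj P ∧ A (del n) * V.ch P = A l

lemma good_const (k : ℤ) : Good ((fun _ => k) + del n) :=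
  ⟨Unit, inferInstance, inferInstance, detRep n k, 1,
    ⟨by simp, by simp, fun _ => Commute.one_right _, fun _ => Commute.one_right _⟩, by
      rw [← A_const]
      simp [Rep.ch_apply, detRep]⟩

lemma good_step {l : Wt n} (h : Good l) (hl : Function.Injective l) (i : Fin n) :
    Good (l + Pi.single i 1) := by
  obtain ⟨ι, _, _, V, P, hP, h⟩ := h
  obtain ⟨P', hP', h'⟩ := V.tens.refine_proj (V.tens_proj hP) (q (l + Pi.single i 1))
  refine ⟨_, inferInstance, inferInstance, V.tens, P', hP', ?_⟩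
  ext ν
  rw [h', V.tens_ch, ← mul_assoc, h, pieri]
  split_ifs with hν
  · simp only [AddMonoidAlgebra.coeff_sum, Finsupp.coe_finsetSum, Finset.sum_apply]
    refine Fintype.sum_eq_single i fun j hj => A_coeff_zero _ _ fun h2 => hj (hl ?_)
    rw [hν, q_add, q_add] at h2
    have : (l j : ℂ) = l i := by linear_combination (-1 / 2 : ℂ) * h2
    exact_mod_cast this
  · exact (A_coeff_zero _ _ hν).symm

lemma good_mono (k : ℤ) (N : ℕ) : ∀ lam : Wt n, Monotone lam → (∀ i, k ≤ lam i) →
    ∑ i, (lam i - k) = N → Good (lam + del n) := by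
  induction N with
  | zero =>
    intro lam _ hk hs
    have := (sum_eq_zero_iff_of_nonneg fun i _ => sub_nonneg.2 (hk i)).1 hs
    have h : lam = fun _ => k := funext fun i => sub_eq_zero.1 (this i (mem_univ i))
    rw [h]
    exact good_const k
  | succ N ih =>
    intro lam hm hk hs
    have hex : ∃ i, k < lam i := by
      by_contra h
      push Not at h
      have : ∑ i, (lam i - k) ≤ 0 := sum_nonpos fun i _ => sub_nonpos.2 (h i)
      omega
    obtain ⟨i, hi, hmin⟩ := WellFounded.has_min wellFounded_lt {i | k < lam i} hex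
    simp only [Set.mem_ofPred_eq] at hi hmin
    have hm' : Monotone (lam - Pi.single i 1) := fun a b hab => by
      have h1 := hm hab
      simp only [Pi.sub_apply, Pi.single_apply]
      split_ifs with ha hb hb
      · omega
      · omega
      · subst hb
        have := mt (hmin a) (not_not.2 (lt_of_le_of_ne hab ha))
        omega
      · omega
    have h := ih (lam - Pi.single i 1) hm' (fun a => by
      have := hk a
      simp only [Pi.sub_apply, Pi.single_apply]
      split_ifs with ha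
      · subst ha; omega
      · omega) (by
      simp only [Pi.sub_apply, sub_right_comm _ _ k, sum_sub_distrib (fun i => lam i - k), hs]
      simp [Pi.single_apply])
    have hinj : StrictMono (lam - Pi.single i 1 + del n) :=
      hm'.add_strictMono fun a b hab => by simpa [del] using hab
    have := good_step h hinj.injective i
    rwa [add_right_comm, sub_add_cancel] at this

theorem schur : SchurStmt := by
  intro n lam hm
  have hk : ∀ i, -∑ j, |lam j| ≤ lam i := fun i => by
    have := single_le_sum (f := fun j => |lam j|) (fun j _ => abs_nonneg _) (mem_univ i)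
    have := neg_abs_le (lam i)
    omega
  obtain ⟨N, hN⟩ := Int.eq_ofNat_of_zero_le
    (sum_nonneg (s := univ) fun i _ => sub_nonneg.2 (hk i))
  obtain ⟨ι, _, _, V, P, hP, h⟩ := good_mono _ N lam hm hk hN
  obtain ⟨χ, h1, h2⟩ := V.exists_char hP
  refine ⟨1, χ, one_pos, h1, fun ν => ?_⟩
  have := congrArg (fun f : R n => f.coeff ν) h
  simp only [A_mul_coeff, A_coeff, h2] at this
  apply Complex.ofReal_injective
  rw [Nat.cast_one, one_mul, ← this, adel]
  simp

end Pool.Agent.MP_caba0b_al.H77
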